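import Pool.Agent.helper53.SP4.Spec2

/-!
# Project SP4 (MP_561ff4_al), row S5V

If `x` maps some transvection of `Sp(4, 2^f)` to an element which is no transvection, then `x * x`
maps transvections to transvections.
-/

set_option autoImplicit false

namespace Pool.Agent.SP4

open Pool.Agent.GS

/-- an element of the symplectic group as a linear map -/
def S5V_f {F : Type} [Field F] (g : SG F) (w : Fin 4 → F) : Fin 4 → F :=
  (g : (Fin 4 → F) ≃ₗ[F] (Fin 4 → F)) w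

theorem S5V_f_mul {F : Type} [Field F] (g h : SG F) (w : Fin 4 → F) :
    S5V_f (g * h) w = S5V_f g (S5V_f h w) := rfl

theorem S5V_f_inv {F : Type} [Field F] (g : SG F) (w : Fin 4 → F) :
    S5V_f g⁻¹ (S5V_f g w) = w := by
  unfold S5V_f
  exact LinearEquiv.symm_apply_apply _ w

theorem S5V_f_inv' {F : Type} [Field F] (g : SG F) (w : Fin 4 → F) :
    S5V_f g (S5V_f g⁻¹ w) = w := by
  have h := S5V_f_inv g⁻¹ w
  rwa [inv_inv] at h

theorem S5V_f_add {F : Type} [Field F] (g : SG F) (v w : Fin 4 → F) :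
    S5V_f g (v + w) = S5V_f g v + S5V_f g w := by
  unfold S5V_f
  exact map_add _ _ _

/-- an element which fixes a symplectic basis is `1` -/
theorem S5V_fix {F : Type} [Field F] (g k : SG F)
    (h : ∀ i : Fin 4, S5V_f k (S5V_f g (Pi.single i 1)) = S5V_f g (Pi.single i 1)) : k = 1 := by
  have h1 : ((k : (Fin 4 → F) ≃ₗ[F] (Fin 4 → F)) : (Fin 4 → F) →ₗ[F] (Fin 4 → F)) ∘ₗ
      ((g : (Fin 4 → F) ≃ₗ[F] (Fin 4 → F)) : (Fin 4 → F) →ₗ[F] (Fin 4 → F)) =
      ((g : (Fin 4 → F) ≃ₗ[F] (Fin 4 → F)) : (Fin 4 → F) →ₗ[F] (Fin 4 → F)) := by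
    refine (Pi.basisFun F (Fin 4)).ext fun i => ?_
    rw [Pi.basisFun_apply]
    exact h i
  apply Subtype.ext
  apply LinearEquiv.ext
  intro w
  have h2 := LinearMap.congr_fun h1 (S5V_f g⁻¹ w)
  have h3 : S5V_f k (S5V_f g (S5V_f g⁻¹ w)) = S5V_f g (S5V_f g⁻¹ w) := h2
  rw [S5V_f_inv'] at h3
  exact h3

theorem S5V_B1 {F : Type} [Field F] (u v w : Fin 4 → F) : B (u + v) w = B u w + B v w := by
  unfold B
  simp only [Pi.add_apply]
  ring

theorem S5V_B2 {F : Type} [Field F] (u v w : Fin 4 → F) : B w (u + v) = B w u + B w v := by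
  unfold B
  simp only [Pi.add_apply]
  ring

/-- the element of order 3 which fixes `A(a, b)` -/
theorem S5V_h {F : Type} [Field F] [CharP F 2] (a b f2 f1 : Fin 4 → F) (hG : Gs a b f2 f1)
    (hself : ∀ v : Fin 4 → F, B v v = 0) (hsym : ∀ u v : Fin 4 → F, B u v = B v u)
    (hW1 : ∀ e1 e2 f2 f1 : Fin 4 → F, Gs e1 e2 f2 f1 → ∃ g : SG F,
      (g : (Fin 4 → F) ≃ₗ[F] (Fin 4 → F)) (Pi.single 0 1) = e1 ∧
      (g : (Fin 4 → F) ≃ₗ[F] (Fin 4 → F)) (Pi.single 1 1) = e2 ∧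
      (g : (Fin 4 → F) ≃ₗ[F] (Fin 4 → F)) (Pi.single 2 1) = f2 ∧
      (g : (Fin 4 → F) ≃ₗ[F] (Fin 4 → F)) (Pi.single 3 1) = f1) :
    ∃ h : SG F, h ^ 3 = 1 ∧ S5V_f h a = b ∧ S5V_f h b = a + b := by
  have two : (1 : F) + 1 = 0 := CharTwo.add_self_eq_zero _
  have hv2 : ∀ v : Fin 4 → F, v + v = 0 := by
    intro v
    funext i
    exact CharTwo.add_self_eq_zero _
  have hG' : Gs b (a + b) f1 (f1 + f2) := by
    obtain ⟨h1, h2, h3, h4, h5, h6⟩ := hG
    refine ⟨?_, ?_, ?_, ?_, ?_, ?_⟩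
    · rw [S5V_B2, h5, h2, zero_add]
    · rw [S5V_B1, h1, h5, add_zero]
    · rw [S5V_B2, hsym b a, h3, hself, add_zero]
    · exact h5
    · rw [S5V_B1, S5V_B2, S5V_B2, h1, h4, h5, h2, add_zero, zero_add]
      exact two
    · rw [S5V_B1, hself, hsym f2 f1, h6, add_zero]
  obtain ⟨g, g0, g1, g2, g3⟩ := hW1 a b f2 f1 hG
  obtain ⟨k, k0, k1, k2, k3⟩ := hW1 b (a + b) f1 (f1 + f2) hG'
  have e0 : S5V_f (k * g⁻¹) a = b := by
    rw [S5V_f_mul, ← g0]
    change S5V_f k (S5V_f g⁻¹ (S5V_f g (Pi.single 0 1))) = b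
    rw [S5V_f_inv]
    exact k0
  have e1 : S5V_f (k * g⁻¹) b = a + b := by
    have h := S5V_f_mul k g⁻¹ b
    rw [h]
    have h' : S5V_f g⁻¹ b = Pi.single 1 1 := by
      rw [← g1]
      exact S5V_f_inv g _
    rw [h']
    exact k1
  have e2 : S5V_f (k * g⁻¹) f2 = f1 := by
    have h' : S5V_f g⁻¹ f2 = Pi.single 2 1 := by
      rw [← g2]
      exact S5V_f_inv g _
    rw [S5V_f_mul, h']
    exact k2
  have e3 : S5V_f (k * g⁻¹) f1 = f1 + f2 := by
    have h' : S5V_f g⁻¹ f1 = Pi.single 3 1 := by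
      rw [← g3]
      exact S5V_f_inv g _
    rw [S5V_f_mul, h']
    exact k3
  refine ⟨k * g⁻¹, ?_, e0, e1⟩
  have hcube : ∀ w, S5V_f ((k * g⁻¹) ^ 3) w =
      S5V_f (k * g⁻¹) (S5V_f (k * g⁻¹) (S5V_f (k * g⁻¹) w)) := by
    intro w
    rw [pow_succ, pow_two]
    rfl
  apply S5V_fix g
  intro i
  have c0 : S5V_f ((k * g⁻¹) ^ 3) a = a := by
    rw [hcube, e0, e1, S5V_f_add, e0, e1]
    rw [add_comm a b, ← add_assoc, hv2, zero_add]
  have c1 : S5V_f ((k * g⁻¹) ^ 3) b = b := by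
    rw [hcube, e1, S5V_f_add, e0, e1]
    rw [add_comm a b, ← add_assoc, hv2, zero_add, e0]
  have c2 : S5V_f ((k * g⁻¹) ^ 3) f2 = f2 := by
    rw [hcube, e2, e3, S5V_f_add, e3, e2]
    rw [add_comm f1 f2, add_assoc, hv2, add_zero]
  have c3 : S5V_f ((k * g⁻¹) ^ 3) f1 = f1 := by
    rw [hcube, e3, S5V_f_add, e3, e2]
    rw [add_comm f1 f2, add_assoc, hv2, add_zero, e2]
  fin_cases i
  · change S5V_f ((k * g⁻¹) ^ 3) ((g : (Fin 4 → F) ≃ₗ[F] (Fin 4 → F)) (Pi.single 0 1)) =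
      (g : (Fin 4 → F) ≃ₗ[F] (Fin 4 → F)) (Pi.single 0 1)
    rw [g0]
    exact c0
  · change S5V_f ((k * g⁻¹) ^ 3) ((g : (Fin 4 → F) ≃ₗ[F] (Fin 4 → F)) (Pi.single 1 1)) =
      (g : (Fin 4 → F) ≃ₗ[F] (Fin 4 → F)) (Pi.single 1 1)
    rw [g1]
    exact c1
  · change S5V_f ((k * g⁻¹) ^ 3) ((g : (Fin 4 → F) ≃ₗ[F] (Fin 4 → F)) (Pi.single 2 1)) =
      (g : (Fin 4 → F) ≃ₗ[F] (Fin 4 → F)) (Pi.single 2 1)
    rw [g2]
    exact c2
  · change S5V_f ((k * g⁻¹) ^ 3) ((g : (Fin 4 → F) ≃ₗ[F] (Fin 4 → F)) (Pi.single 3 1)) =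
      (g : (Fin 4 → F) ≃ₗ[F] (Fin 4 → F)) (Pi.single 3 1)
    rw [g3]
    exact c3

theorem S5V_neA {F : Type} [Field F] (a b f2 f1 w : Fin 4 → F) (s : SG F) (hG : Gs a b f2 f1)
    (hab : Pl a b) (hA : IsA a b s) (hT : IsT w s) : False := by
  obtain ⟨h1, h2, h3, h4, h5, h6⟩ := hG
  have e : ∀ z, B b z • a + B a z • b = B w z • w := by
    intro z
    have h := (hA z).symm.trans (hT z)
    exact add_left_cancel h
  have e1 := e f1
  have e2 := e f2
  rw [h1, h5, zero_smul, zero_add, one_smul] at e1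
  rw [h2, h4, zero_smul, add_zero, one_smul] at e2
  have hli := hab.1
  rw [LinearIndependent.pair_iff] at hli
  have h7 : B w f1 • a + (-(B w f2)) • b = 0 := by
    rw [e1, e2, smul_smul, smul_smul, ← add_smul]
    have : B w f1 * B w f2 + -(B w f2) * B w f1 = 0 := by ring
    rw [this, zero_smul]
  have h8 := (hli _ _ h7).1
  rw [h8, zero_smul] at e1
  have h9 : (0 : F) • a + (1 : F) • b = 0 := by
    rw [e1]
    simp
  exact one_ne_zero (hli _ _ h9).2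

theorem S5V (hS4B : S4B_stmt) (hS4W : S4W_stmt) (hS4I : S4I_stmt) (hS4C : S4C_stmt)
    (hS4X : S4X_stmt) : S5V_stmt := by
  intro F _ _ _ x hx v t hv ht
  obtain ⟨hself, hsym, hnd, hBl, hT, hA, hC, hconj, huniq, hTinj, hcent, hPl⟩ := hS4B F
  obtain ⟨hW1, hW2, hW3, hW4, hW5⟩ := hS4W F
  obtain ⟨a, b, hab, hs⟩ := (hS4X F x hx).1 v t hv ht
  obtain ⟨f2, f1, hG⟩ := hW3 a b hab
  have hsq : t * t = 1 := by
    obtain ⟨t', h1, h2⟩ := hT v
    have h3 : t' = t := (huniq v v t' t).1 h1 ht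
    rw [← h3]
    exact h2
  have ht1 : t ≠ 1 := by
    intro h
    apply hv
    apply hTinj v 0 t ht
    rw [h]
    intro w
    simp
  have hxsq : x (x t) * x (x t) = 1 := by
    rw [← map_mul, ← map_mul, hsq, map_one, map_one]
  have hx1 : x (x t) ≠ 1 := by
    intro h
    apply ht1
    apply x.injective
    apply x.injective
    rw [h, map_one, map_one]
  rcases hS4I F (x (x t)) hxsq hx1 with ⟨w, _, hw⟩ | ⟨c, d, hcd, hxA⟩ | ⟨c, d, hcd, hxC⟩
  · exact ⟨w, hw⟩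
  · exfalso
    obtain ⟨g, g1, g2⟩ := hW5 a b c d hab hcd
    have e1 := (hconj g (x t) a b).2.1 hs
    rw [g1, g2] at e1
    have e2 : x (x t) = g * x t * g⁻¹ := (huniq c d _ _).2.1 hxA e1
    have e3 : x t = x.symm g * t * (x.symm g)⁻¹ := by
      apply x.injective
      rw [e2, map_mul, map_mul, map_inv, MulEquiv.apply_symm_apply]
    have e4 := (hconj (x.symm g) t v v).1 ht
    rw [← e3] at e4
    exact S5V_neA a b f2 f1 _ (x t) hG hab hs e4
  · exfalso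
    obtain ⟨h, h3, ha, hb⟩ := S5V_h a b f2 f1 hG hself hsym hW1
    have e1 := (hconj h (x t) a b).2.1 hs
    have e2 : IsA a b (h * x t * h⁻¹) := by
      intro w
      rw [e1 w]
      change w + (B (S5V_f h b) w • S5V_f h a + B (S5V_f h a) w • S5V_f h b) = _
      rw [ha, hb, S5V_B1]
      funext i
      have two : (1 : F) + 1 = 0 := CharTwo.add_self_eq_zero _
      simp only [Pi.add_apply, Pi.smul_apply, smul_eq_mul]
      linear_combination (B b w * b i) * two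
    have e3 : h * x t * h⁻¹ = x t := (huniq a b _ _).2.1 e2 hs
    have e4 : h * x t = x t * h := mul_inv_eq_iff_eq_mul.1 e3
    have e5 : x h = 1 := by
      apply hS4C F c d (x (x t)) (x h) hcd hxC
      · rw [← map_mul, ← map_mul, e4]
      · rw [← map_pow, h3, map_one]
    have e6 : h = 1 := by
      apply x.injective
      rw [e5, map_one]
    rw [e6] at ha
    have e7 : a = b := ha
    have hli := hab.1
    rw [LinearIndependent.pair_iff] at hli
    have e8 : (1 : F) • a + (-1 : F) • b = 0 := by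
      rw [e7, ← add_smul, add_neg_cancel, zero_smul]
    exact one_ne_zero (hli _ _ e8).1

end Pool.Agent.SP4
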